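import Pool.Agent.W2helper49.LW.Defs

/-!
# Sums with slowly increasing levels (piece LW4)
-/

set_option autoImplicit false
open scoped ContDiff
open Filter Topology

namespace Pool.Agent.W2helper12.LW

/-- a slowly increasing level sequence adapted to the bounds `B` -/
noncomputable def lev (B : ℕ → ℝ) : ℕ → ℕ
  | 0 => 0
  | (n + 1) => by
      classical
      exact if B (lev B n + 1) ≤ n then lev B n + 1 else lev B n

theorem lev_succ (B : ℕ → ℝ) (n : ℕ) :
    (B (lev B n + 1) ≤ n ∧ lev B (n + 1) = lev B n + 1) ∨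
      (¬ B (lev B n + 1) ≤ n ∧ lev B (n + 1) = lev B n) := by
  classical
  by_cases h : B (lev B n + 1) ≤ n
  · left
    refine ⟨h, ?_⟩
    simp [lev, h]
  · right
    refine ⟨h, ?_⟩
    simp [lev, h]

theorem lev_mono (B : ℕ → ℝ) : Monotone (lev B) := by
  refine monotone_nat_of_le_succ (fun n => ?_)
  rcases lev_succ B n with h | h
  · rw [h.2]; exact Nat.le_succ _
  · rw [h.2]

theorem lev_tendsto (B : ℕ → ℝ) : Tendsto (lev B) atTop atTop := by
  refine tendsto_atTop_atTop_of_monotone (lev_mono B) (fun b => ?_)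
  by_contra hcon
  push Not at hcon
  -- the sequence is bounded by `b`; it takes a maximal value
  have hbdd : ∃ N, ∀ n, N ≤ n → lev B n = lev B N := by
    have : ∀ c : ℕ, (∃ N, lev B N + c ≥ b) → ∃ N, ∀ n, N ≤ n → lev B n = lev B N := by
      intro c
      induction c with
      | zero =>
        rintro ⟨N, hN⟩
        exact absurd (hcon N) (by omega)
      | succ c ih =>
        rintro ⟨N, hN⟩
        by_cases hex : ∃ n, N ≤ n ∧ lev B n ≠ lev B N
        · obtain ⟨n, hn, hne⟩ := hex
          have : lev B N < lev B n := lt_of_le_of_ne (lev_mono B hn) (Ne.symm hne)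
          exact ih ⟨n, by omega⟩
        · push Not at hex
          exact ⟨N, hex⟩
    exact this b ⟨0, by omega⟩
  obtain ⟨N, hN⟩ := hbdd
  obtain ⟨M, hM⟩ := exists_nat_ge (B (lev B N + 1))
  have h1 := lev_succ B (max N M)
  rw [hN (max N M) (le_max_left _ _), hN (max N M + 1) (by omega)] at h1
  rcases h1 with h1 | h1
  · omega
  · apply h1.1
    refine hM.trans ?_
    exact_mod_cast le_max_right _ _

theorem lev_bound (B : ℕ → ℝ) (hB : ∀ n, 0 ≤ B n) (n : ℕ) :
    B (lev B n) ≤ n + B 0 := by
  induction n with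
  | zero => simp [lev]
  | succ n ih =>
    push_cast
    rcases lev_succ B n with h | h
    · rw [h.2]
      have := h.1
      have := hB 0
      linarith
    · rw [h.2]
      linarith

theorem bound_deriv (G : ℂ → ℝ) (hG : ContDiff ℝ ∞ G) (c : ℂ) (k : ℕ) (C : ℝ)
    (hC : ∀ z, ‖iteratedFDeriv ℝ k G z‖ ≤ C) (z : ℂ) :
    ‖iteratedFDeriv ℝ k (fun w => G (c * w)) z‖ ≤ ‖c‖ ^ k * C := by
  have h0 : (fun w => G (c * w)) = G ∘ (ContinuousLinearMap.mul ℝ ℂ c) := by
    funext w; simp
  have hk : ContDiff ℝ k G := hG.of_le (by exact_mod_cast le_top)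
  rw [h0, ContinuousLinearMap.iteratedFDeriv_comp_right _ hk z le_rfl]
  refine (ContinuousMultilinearMap.norm_compContinuousLinearMap_le _ _).trans ?_
  rw [Finset.prod_const, Finset.card_univ, Fintype.card_fin, mul_comm]
  have h1 : ‖ContinuousLinearMap.mul ℝ ℂ c‖ ≤ ‖c‖ := ContinuousLinearMap.opNorm_mul_apply_le ℝ ℂ c
  have hC0 : 0 ≤ ‖iteratedFDeriv ℝ k G ((ContinuousLinearMap.mul ℝ ℂ c) z)‖ := norm_nonneg _
  gcongr
  exact hC _

theorem t_LW4 : Pool.Agent.W2helper49.LW.LW4 := by
  intro G hG hGc q hq hqt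
  -- bounds of the derivatives
  have hb : ∀ L k : ℕ, ∃ C : ℝ, 0 ≤ C ∧ ∀ z, ‖iteratedFDeriv ℝ k (G L) z‖ ≤ C := by
    intro L k
    have h1 : Continuous (iteratedFDeriv ℝ k (G L)) :=
      (hG L).continuous_iteratedFDeriv (m := k) (by exact_mod_cast le_top)
    obtain ⟨C, hC⟩ := ((hGc L).iteratedFDeriv (𝕜 := ℝ) k).exists_bound_of_continuous h1
    exact ⟨C, le_trans (norm_nonneg _) (hC 0), hC⟩
  choose C hC0 hC using hb
  set B : ℕ → ℝ := fun L => ∑ k ∈ Finset.range (L + 1), C L k with hBdef
  have hB0 : ∀ L, 0 ≤ B L := fun L => Finset.sum_nonneg (fun k _ => hC0 L k)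
  have hCB : ∀ L k, k ≤ L → C L k ≤ B L := by
    intro L k hk
    exact Finset.single_le_sum (f := fun k => C L k) (fun k _ => hC0 L k)
      (Finset.mem_range.2 (by omega))
  set l := lev B with hl
  refine ⟨l, fun n => ?_, ?_⟩
  · rcases lev_succ B n with h | h
    · right; exact h.2
    · left; exact h.2
  intro a F ha hF
  have hqpos : ∀ n, 0 < q n := fun n => lt_of_lt_of_le one_pos (hq n)
  have hapos : ∀ n, 0 < a n := by
    intro n
    rw [ha n]
    exact Finset.prod_pos (fun j _ => inv_pos.2 (hqpos _))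
  have hasucc : ∀ n, a (n + 1) = a n * (q (l n))⁻¹ := by
    intro n
    rw [ha, ha, Finset.prod_range_succ]
  -- the majorant
  set v : ℕ → ℕ → ℝ := fun k n => a n / 3 ^ n * ((3 ^ n) ^ k * C (l n) k) with hv
  have hvs : ∀ k, Summable (v k) := by
    intro k
    set w : ℕ → ℝ := fun n => a n * ((3 ^ k) ^ n * (n + B 0 + 1)) with hw
    have hwpos : ∀ n, 0 < w n := by
      intro n
      have := hapos n
      have := hB0 0
      positivity
    have hws : Summable w := by
      refine summable_of_ratio_test_tendsto_lt_one (l := 0) one_pos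
        (Eventually.of_forall (fun n => (hwpos n).ne')) ?_
      have h1 : (fun n => ‖w (n + 1)‖ / ‖w n‖) =
          fun n : ℕ => (q (l n))⁻¹ * (3 ^ k * (((n : ℝ) + B 0 + 2) / ((n : ℝ) + B 0 + 1))) := by
        funext n
        rw [Real.norm_of_nonneg (hwpos _).le, Real.norm_of_nonneg (hwpos _).le]
        simp only [hw, hasucc]
        have h2 := (hapos n).ne'
        have h3 : (n : ℝ) + B 0 + 1 ≠ 0 := by
          have := hB0 0
          positivity
        have h4 : (3 ^ k : ℝ) ^ n ≠ 0 := by positivity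
        have h5 := (hqpos (l n)).ne'
        rw [pow_succ]
        push_cast
        field_simp
        ring
      rw [h1]
      have h2 : Tendsto (fun n : ℕ => (q (l n))⁻¹) atTop (𝓝 0) :=
        tendsto_inv_atTop_zero.comp (hqt.comp (lev_tendsto B))
      have h3 : Tendsto (fun n : ℕ => (3 : ℝ) ^ k * (((n : ℝ) + B 0 + 2) / ((n : ℝ) + B 0 + 1)))
          atTop (𝓝 (3 ^ k * 1)) := by
        refine Tendsto.const_mul _ ?_
        have h4 : (fun n : ℕ => (((n : ℝ) + B 0 + 2) / ((n : ℝ) + B 0 + 1))) =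
            fun n : ℕ => 1 + ((n : ℝ) + B 0 + 1)⁻¹ := by
          funext n
          have h3 : (n : ℝ) + B 0 + 1 ≠ 0 := by
            have := hB0 0
            positivity
          field_simp
          ring
        rw [h4]
        have h5 : Tendsto (fun n : ℕ => (n : ℝ) + B 0 + 1) atTop atTop :=
          tendsto_atTop_add_const_right _ _ (tendsto_atTop_add_const_right _ _
            tendsto_natCast_atTop_atTop)
        have := (tendsto_inv_atTop_zero.comp h5).const_add (1 : ℝ)
        simpa using this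
      have := h2.mul h3
      simpa using this
    refine Summable.of_norm_bounded_eventually_nat hws ?_
    have hk : ∀ᶠ n in atTop, k ≤ l n := (lev_tendsto B).eventually_ge_atTop k
    filter_upwards [hk] with n hn
    have h0 : 0 ≤ v k n := by
      have := hapos n
      have := hC0 (l n) k
      positivity
    rw [Real.norm_of_nonneg h0]
    have h1 : C (l n) k ≤ n + B 0 + 1 := by
      have h2 := hCB (l n) k hn
      have h3 := lev_bound B hB0 n
      linarith
    have h2 : (1 : ℝ) ≤ 3 ^ n := one_le_pow₀ (by norm_num)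
    have h3 : a n / 3 ^ n ≤ a n := div_le_self (hapos n).le h2
    have h4 := hC0 (l n) k
    have h5 := hapos n
    calc v k n = a n / 3 ^ n * ((3 ^ k) ^ n * C (l n) k) := by
          simp only [hv]
          rw [← pow_mul, ← pow_mul, mul_comm n k]
      _ ≤ a n * ((3 ^ k) ^ n * (n + B 0 + 1)) := by gcongr
      _ = w n := rfl
  -- smoothness and bounds of the terms
  have hFeq : ∀ n, F n = fun z => (a n / 3 ^ n) • G (l n) ((3 * Complex.I) ^ n * z) := by
    intro n
    funext z
    rw [hF n z, smul_eq_mul]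
  have hsm : ∀ n, ContDiff ℝ ∞ (fun z : ℂ => G (l n) ((3 * Complex.I) ^ n * z)) := by
    intro n
    exact (hG (l n)).comp (contDiff_const.mul contDiff_id)
  have hFs : ∀ n, ContDiff ℝ ∞ (F n) := by
    intro n
    rw [hFeq n]
    exact (hsm n).const_smul _
  have hFb : ∀ (k n : ℕ) (z : ℂ), ‖iteratedFDeriv ℝ k (F n) z‖ ≤ v k n := by
    intro k n z
    rw [hFeq n, iteratedFDeriv_const_smul_apply'
      (((hsm n).of_le (by exact_mod_cast le_top)).contDiffAt), norm_smul]
    have h1 := bound_deriv (G (l n)) (hG (l n)) ((3 * Complex.I) ^ n) k (C (l n) k)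
      (hC (l n) k) z
    have h2 : ‖((3 : ℂ) * Complex.I) ^ n‖ = 3 ^ n := by
      rw [norm_pow, norm_mul, Complex.norm_I, mul_one]
      norm_num
    rw [h2] at h1
    have h3 : ‖a n / 3 ^ n‖ = a n / 3 ^ n := by
      rw [Real.norm_of_nonneg]
      have := hapos n
      positivity
    rw [h3]
    have h4 := hapos n
    simp only [hv]
    gcongr
  refine ⟨contDiff_tsum (N := ⊤) hFs (fun k _ => hvs k) (fun k n z _ => hFb k n z), ?_, ?_⟩
  · intro z
    exact Summable.of_norm_bounded (hvs 2) (fun n => hFb 2 n z)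
  · intro z
    exact iteratedFDeriv_tsum_apply (N := ⊤) hFs (fun k _ => hvs k) (fun k n z _ => hFb k n z)
      (k := 2) le_top z

end Pool.Agent.W2helper12.LW
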